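import Pool.Agent.R469.TabAut

/-!
# The tree of shifted standard Young tableaux has no symmetry

`Pool.Agent.R469.Tab Sh` is the type of the standard tableaux whose shape satisfies `Sh`,
`Pool.Agent.R469.tabTree Sh` is the graph in which every tableau is joined to the tableaux obtained
by adding one cell with the next entry. For the shifted diagrams of strict partitions every
automorphism of this graph is the identity.
-/

namespace Pool.Agent.Results.MP_c76eb3_co.RigidTree

open Pool.Agent.R469

/-- `s` is the shifted diagram of a strict partition `l 0 > l 1 > ⋯ > l (ℓ - 1) > 0` (continued by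
zeros): row `i` begins in column `i` and has `l i` cells (rows and columns are counted from `0`). -/
def IsShiftedDiagram (s : Finset (ℕ × ℕ)) : Prop :=
  ∃ l : ℕ → ℕ, (∀ i, 0 < l (i + 1) → l (i + 1) < l i) ∧
    ∀ i j : ℕ, (i, j) ∈ s ↔ i ≤ j ∧ j < i + l i

/-- The end of row `i`, counted from the diagonal. -/
def rowL (s : Finset (ℕ × ℕ)) (i : ℕ) : ℕ := (s.filter fun c => c.1 = i).sup fun c => c.2 + 1 - i

theorem le_rowL {s : Finset (ℕ × ℕ)} {i j : ℕ} (hij : (i, j) ∈ s) : j + 1 - i ≤ rowL s i := by
  have hm : ((i, j) : ℕ × ℕ) ∈ s.filter fun c => c.1 = i := Finset.mem_filter.2 ⟨hij, rfl⟩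
  exact Finset.le_sup (f := fun c : ℕ × ℕ => c.2 + 1 - i) hm

theorem exists_of_lt_rowL {s : Finset (ℕ × ℕ)} {i m : ℕ} (hm : m < rowL s i) :
    ∃ j, (i, j) ∈ s ∧ rowL s i = j + 1 - i ∧ m < j + 1 - i := by
  have hne : (s.filter fun c => c.1 = i).Nonempty := by
    by_contra hne
    rw [Finset.not_nonempty_iff_eq_empty] at hne
    unfold rowL at hm
    rw [hne] at hm
    simp at hm
  obtain ⟨c, hc, hcs⟩ := Finset.exists_mem_eq_sup (s.filter fun c => c.1 = i) hne
    (fun c => c.2 + 1 - i)
  obtain ⟨hc1, hc2⟩ := Finset.mem_filter.1 hc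
  refine ⟨c.2, ?_, hcs, ?_⟩
  · rwa [show ((i, c.2) : ℕ × ℕ) = c from Prod.ext hc2.symm rfl]
  · have h1 : rowL s i = c.2 + 1 - i := hcs
    omega

theorem isShiftedDiagram_iff (s : Finset (ℕ × ℕ)) :
    IsShiftedDiagram s ↔ Rigid.IsIdeal (fun j => j) s := by
  constructor
  · rintro ⟨l, hl, hs⟩
    have hdec : ∀ n i, 0 < l (i + n) → l (i + n) + n ≤ l i := by
      intro n
      induction n with
      | zero => intro i _; exact le_rfl
      | succ n ih =>
        intro i hi
        have h1 := hl (i + n) hi
        have h2 := ih i (by omega)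
        have h3 : l (i + (n + 1)) = l (i + n + 1) := rfl
        omega
    constructor
    · intro c hc
      exact ((hs c.1 c.2).1 hc).1
    · intro c hc d h1 h2 h3
      obtain ⟨h4, h5⟩ := (hs c.1 c.2).1 hc
      obtain ⟨n, hn⟩ := Nat.exists_eq_add_of_le h1
      have h6 := hdec n d.1 (by rw [← hn]; omega)
      rw [← hn] at h6
      exact (hs d.1 d.2).2 ⟨h3, by omega⟩
  · rintro ⟨h1, h2⟩
    refine ⟨rowL s, ?_, ?_⟩
    · intro i hi
      obtain ⟨j, hj, hjs, hj0⟩ := exists_of_lt_rowL hi
      have h3 : (i, j) ∈ s := h2 _ hj (i, j) (by simp) le_rfl (by simp only; omega)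
      have h4 := le_rowL h3
      omega
    · intro i j
      constructor
      · intro hij
        have h3 := h1 _ hij
        have h4 := le_rowL hij
        simp only at h3
        exact ⟨h3, by omega⟩
      · rintro ⟨h3, h4⟩
        obtain ⟨j', hj', -, h5⟩ := exists_of_lt_rowL (s := s) (i := i) (m := j - i) (by omega)
        exact h2 _ hj' (i, j) le_rfl (by simp only; omega) h3

/-- The only automorphism of the unlabeled tree of the shifted standard Young tableaux is the
identity. -/
theorem result (φ : tabTree IsShiftedDiagram ≃g tabTree IsShiftedDiagram) :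
    φ = SimpleGraph.Iso.refl := by
  apply RelIso.ext
  intro T
  exact Tab.rigid (h := fun j => j) (fun _ _ hab => hab) isShiftedDiagram_iff φ _ T rfl

end Pool.Agent.Results.MP_c76eb3_co.RigidTree
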